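import Pool.Agent.helper17.MLG.Spec

/-!
# MP_84f457_gt, project mlg, row FNL: the final statement
-/

set_option autoImplicit false
set_option linter.unusedSectionVars false

namespace Pool.Agent.MLG

open MeasureTheory Set Filter Topology Module
open scoped ENNReal ContDiff

/-- a monotone strictly concave function is strictly monotone -/
theorem FNL_strictMono (f : ℝ → ℝ) (h1 : StrictConcaveOn ℝ (Ioi 0) f) (h2 : MonotoneOn f (Ioi 0)) :
    StrictMonoOn f (Ioi 0) := by
  intro x hx y hy hxy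
  refine lt_of_le_of_ne (h2 hx hy hxy.le) fun he => ?_
  have hz : (x + y) / 2 ∈ Ioi (0 : ℝ) := by
    have hx' : 0 < x := hx
    have hy' : 0 < y := hy
    change 0 < (x + y) / 2
    linarith
  have h3 := h1.2 hx hy hxy.ne (show (0 : ℝ) < 1 / 2 by norm_num) (show (0 : ℝ) < 1 / 2 by norm_num)
    (by norm_num)
  have h4 : (1 / 2 : ℝ) • x + (1 / 2 : ℝ) • y = (x + y) / 2 := by
    simp only [smul_eq_mul]; ring
  rw [h4] at h3
  have h5 := h2 hz hy (by linarith)
  simp only [smul_eq_mul] at h3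
  linarith

theorem FNL (hCON : CON_stmt) (hSTR : STR_stmt) (hSSA : SSA_stmt) (hREG : REG_stmt) (hMCV : MCV_stmt) (hDFF : DFF_stmt) (hPER : PER_stmt) (hMES : MES_stmt) : FNL_stmt := by
  intro V _ _ _ _ _ _ hV hn
  have h1 : 1 ≤ finrank ℝ V := le_trans one_le_two hn
  obtain ⟨hconc, hmono, hfin⟩ := hCON V hV h1
  have hstr := hSTR V hV hn
  have hsm := FNL_strictMono _ hstr hmono
  obtain ⟨-, hsub⟩ := hSSA V hV h1
  have hiso : ∀ v : ℝ, 0 < v → iso V v = prof V v := fun v hv => (hREG V hV h1 v hv).1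
  have hisoR : ∀ v : ℝ, 0 < v → (iso V v).toReal = Ip V v := fun v hv => by rw [hiso v hv]; rfl
  have hprof : ∀ (E : Set V) (v : ℝ), MeasurableSet E → vol V E = ENNReal.ofReal v → prof V v ≤ per E := by
    intro E v hE hv
    exact iInf_le_of_le E (iInf_le_of_le hE (iInf_le_of_le hv le_rfl))
  -- the volume and perimeter of a solution
  have hsol : ∀ (E : Set V) (v : ℝ), 0 < v → IsSol E → vol V E = ENNReal.ofReal v → per E = prof V v :=
    fun E v hv hE hvE => ((hREG V hV h1 v hv).2.2 E hE.1 hvE).1 hE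
  have hnn : ∀ v : ℝ, 0 ≤ Ip V v := fun v => ENNReal.toReal_nonneg
  have hEm : ∀ E : Set V, IsSol E → MeasurableSet E := fun E hE => hE.1.1.isClosed.measurableSet
  have hcpt : ∀ E : Set V, IsSol E → vol V E ≠ ⊤ := by
    intro E hE
    have hT := top hV
    have hH := (hMES V hV).1
    exact hE.1.1.measure_lt_top.ne
  have hvolR : ∀ E : Set V, 0 < vol V E → vol V E ≠ ⊤ → ∃ x : ℝ, 0 < x ∧ vol V E = ENNReal.ofReal x :=
    fun E h0 hf => ⟨(vol V E).toReal, ENNReal.toReal_pos h0.ne' hf, (ENNReal.ofReal_toReal hf).symm⟩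
  refine ⟨?_, ?_, ?_, ?_, ?_, ?_⟩
  · intro v hv
    refine ⟨?_, (hREG V hV h1 v hv).2.1, fun E hE hvE => ?_⟩
    · rw [hiso v hv, hfin v hv]
      exact ENNReal.ofReal_lt_top
    · rw [hiso v hv]
      exact hprof E v hE hvE
  · refine hstr.congr fun v hv => ?_
    exact (hisoR v hv).symm
  · intro x hx y hy hxy
    change (iso V x).toReal < (iso V y).toReal
    rw [hisoR x hx, hisoR y hy]
    exact hsm hx hy hxy
  · -- solutions are indecomposable
    intro E A B hE hA hB hAB hE' hA0 hB0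
    have hEfin : vol V E ≠ ⊤ := hcpt E hE
    have hAf : vol V A ≠ ⊤ := ne_top_of_le_ne_top hEfin (measure_mono (hE' ▸ subset_union_left))
    have hBf : vol V B ≠ ⊤ := ne_top_of_le_ne_top hEfin (measure_mono (hE' ▸ subset_union_right))
    obtain ⟨x, hx, hAx⟩ := hvolR A hA0 hAf
    obtain ⟨y, hy, hBy⟩ := hvolR B hB0 hBf
    have hEv : vol V E = ENNReal.ofReal (x + y) := by
      rw [← hE', measure_union hAB hB, hAx, hBy, ENNReal.ofReal_add hx.le hy.le]
    have h3 : per E = ENNReal.ofReal (Ip V (x + y)) := by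
      rw [hsol E (x + y) (add_pos hx hy) hE hEv, hfin _ (add_pos hx hy)]
    have h4 : ENNReal.ofReal (Ip V x) ≤ per A := by
      rw [← hfin x hx]; exact hprof A x hA hAx
    have h5 : ENNReal.ofReal (Ip V y) ≤ per B := by
      rw [← hfin y hy]; exact hprof B y hB hBy
    have h6 : ENNReal.ofReal (Ip V (x + y)) < ENNReal.ofReal (Ip V x) + ENNReal.ofReal (Ip V y) := by
      rw [← ENNReal.ofReal_add (hnn x) (hnn y)]
      exact (ENNReal.ofReal_lt_ofReal_iff_of_nonneg (hnn (x + y))).2 (hsub x y hx hy)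
    rw [h3]
    exact h6.trans_le (add_le_add h4 h5)
  · intro E A hE hE0 hA hAE hA0 hAf
    have hEfin : vol V E ≠ ⊤ := hcpt E hE
    obtain ⟨v, hv, hEv⟩ := hvolR E hE0 hEfin
    obtain ⟨x, hx, hAx⟩ := hvolR A hA0 hAf.ne
    have hU : vol V (E ∪ A) = ENNReal.ofReal (v + x) := by
      rw [measure_union hAE.symm hA, hEv, hAx, ENNReal.ofReal_add hv.le hx.le]
    have h3 := hprof (E ∪ A) (v + x) (hEm E hE |>.union hA) hU
    rw [hsol E v hv hE hEv]
    refine lt_of_lt_of_le ?_ h3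
    rw [hfin v hv, hfin _ (add_pos hv hx)]
    refine (ENNReal.ofReal_lt_ofReal_iff_of_nonneg (hnn v)).2 ?_
    exact hsm hv (add_pos hv hx) (by linarith)
  · obtain ⟨N, hN, hdiff, hanti⟩ := hDFF _ hstr
    refine ⟨N, deriv (Ip V), hN, hanti, ?_⟩
    intro v hv hvN E hE hvE A p w hA0 hAm hAfin hw hp
    refine hMCV V hV h1 v p w A hv (hdiff v hv hvN) hAm ?_ ?_ hAfin hw hp
    · rw [hA0]; exact hvE
    · rw [hA0]; exact hsol E v hv hE hvE

end Pool.Agent.MLG
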