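import Pool.Agent.helper73.MLG.FRA
import Pool.Agent.helper73.MLG.MES
import Pool.Agent.helper45.MLG.IBP
import Pool.Agent.helper73.MLG.GRR
import Pool.Agent.helper53.MLG.DLI
import Pool.Agent.helper77.MLG.CSM
import Pool.Agent.helper74.MLG.CTV
import Pool.Agent.helper53.MLG.CVI
import Pool.Agent.helper11.MLG.MOL
import Pool.Agent.helper32.MLG.CVL
import Pool.Agent.helper56.MLG.APX
import Pool.Agent.helper59.MLG.TVS
import Pool.Agent.helper56.MLG.LSC
import Pool.Agent.helper88.MLG.SUB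
import Pool.Agent.helper56.MLG.CTT
import Pool.Agent.helper59.MLG.COA
import Pool.Agent.helper59.MLG.CUT
import Pool.Agent.helper53.MLG.PER
import Pool.Agent.helper53.MLG.OVL
import Pool.Agent.helper14.MLG.FIN
import Pool.Agent.helper41.MLG.MID
import Pool.Agent.helper73.MLG.RAN
import Pool.Agent.helper11.MLG.ConRow
import Pool.Agent.helper68.MLG.RTM
import Pool.Agent.helper77.MLG.RTS
import Pool.Agent.helper79.MLG.RTE
import Pool.Agent.helper11.MLG.AVE
import Pool.Agent.helper29.MLG.VBL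
import Pool.Agent.helper3.MLG.ISO
import Pool.Agent.helper82.MLG.NVA
import Pool.Agent.helper19.MLG.LCP
import Pool.Agent.helper88.MLG.SSA
import Pool.Agent.helper42.MLG.CTF
import Pool.Agent.helper19.MLG.SPL
import Pool.Agent.helper19.MLG.EXI
import Pool.Agent.helper65.MLG.ITR
import Pool.Agent.helper97.MLG.CTB
import Pool.Agent.helper80.MLG.BLC
import Pool.Agent.helper80.MLG.CLE
import Pool.Agent.helper79.MLG.CLC
import Pool.Agent.helper87.MLG.SUP
import Pool.Agent.helper74.MLG.THK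
import Pool.Agent.helper80.MLG.CGR
import Pool.Agent.helper8.MLG.CHN
import Pool.Agent.helper11.MLG.TRI
import Pool.Agent.helper9.MLG.CLO
import Pool.Agent.helper11.MLG.POI
import Pool.Agent.helper48.MLG.RHA
import Pool.Agent.helper97.MLG.AFF
import Pool.Agent.helper32.MLG.STR
import Pool.Agent.helper65.MLG.DFF
import Pool.Agent.helper77.MLG.REG
import Pool.Agent.helper83.MLG.MCV
import Pool.Agent.helper17.MLG.FNL

/-!
# MP_84f457_gt, project mlg: assembly of all rows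
-/

set_option autoImplicit false

namespace Pool.Agent.MLG

theorem r_FRA : FRA_stmt := FRA
theorem r_MES : MES_stmt := MES r_FRA
theorem r_IBP : IBP_stmt := IBP r_FRA
theorem r_GRR : GRR_stmt := GRR r_FRA
theorem r_DLI : DLI_stmt := DLI r_MES r_IBP r_GRR
theorem r_CSM : CSM_stmt := CSM r_MES
theorem r_CTV : CTV_stmt := CTV r_MES r_IBP r_DLI
theorem r_CVI : CVI_stmt := CVI r_MES
theorem r_MOL : MOL_stmt := MOL r_MES
theorem r_CVL : CVL_stmt := CVL r_MES
theorem r_APX : APX_stmt := APX r_CSM r_CTV r_MOL r_CVL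
theorem r_TVS : TVS_stmt := TVS r_IBP r_GRR r_MES
theorem r_LSC : LSC_stmt := LSC r_IBP r_MES
theorem r_SUB : SUB_stmt := SUB r_APX r_TVS r_LSC r_GRR
theorem r_CTT : CTT_stmt := CTT r_APX r_TVS r_LSC r_GRR r_MES
theorem r_COA : COA_stmt := COA r_TVS r_LSC r_GRR r_MES
theorem r_CUT : CUT_stmt := CUT r_CTT r_LSC r_GRR r_MES
theorem r_PER : PER_stmt := PER r_MES r_IBP r_DLI r_SUB
theorem r_OVL : OVL_stmt := OVL r_MES
theorem r_FIN : FIN_stmt := FIN r_MES r_GRR r_COA r_PER r_OVL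
theorem r_MID : MID_stmt := MID r_MES r_PER r_OVL r_FIN
theorem r_RAN : RAN_stmt := RAN
theorem r_CON : CON_stmt := CON r_MID r_RAN r_FIN
theorem r_RTM : RTM_stmt := RTM r_MES
theorem r_RTS : RTS_stmt := RTS r_FRA r_MES r_RTM
theorem r_RTE : RTE_stmt := RTE r_RTS r_APX r_TVS r_RTM r_PER
theorem r_AVE : AVE_stmt := AVE r_RTE r_MES
theorem r_VBL : VBL_stmt := VBL r_FRA r_MES
theorem r_ISO : ISO_stmt := ISO r_AVE r_VBL
theorem r_NVA : NVA_stmt := NVA r_AVE r_VBL
theorem r_LCP : LCP_stmt := LCP r_AVE r_PER r_VBL r_MES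
theorem r_SSA : SSA_stmt := SSA r_CON r_ISO
theorem r_CTF : CTF_stmt := CTF r_FRA r_MES r_GRR
theorem r_SPL : SPL_stmt := SPL r_CUT r_CTF r_GRR r_MES r_PER
theorem r_EXI : EXI_stmt := EXI r_CON r_SSA r_NVA r_LCP r_LSC r_PER r_SPL r_VBL r_MES
theorem r_ITR : ITR_stmt := ITR
theorem r_CTB : CTB_stmt := CTB r_FRA r_GRR
theorem r_BLC : BLC_stmt := BLC r_CUT r_CTB r_VBL
theorem r_CLE : CLE_stmt := CLE r_CON r_ISO r_BLC r_ITR r_VBL r_PER
theorem r_CLC : CLC_stmt := CLC r_CON r_ISO r_BLC r_ITR r_VBL r_PER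
theorem r_SUP : SUP_stmt := SUP r_CON r_CLE r_CLC r_AVE r_PER r_VBL r_MES
theorem r_THK : THK_stmt := THK r_MES
theorem r_CGR : CGR_stmt := CGR r_FRA r_MES r_GRR
theorem r_CHN : CHN_stmt := CHN r_CON r_EXI r_SUP r_THK r_CSM r_CTV r_CVI r_MOL r_TVS r_COA r_CGR r_PER r_MES r_GRR
theorem r_TRI : TRI_stmt := TRI r_MES
theorem r_CLO : CLO_stmt := CLO r_FRA r_GRR
theorem r_POI : POI_stmt := POI
theorem r_RHA : RHA_stmt := RHA r_FRA r_MES
theorem r_AFF : AFF_stmt := AFF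
theorem r_STR : STR_stmt := STR r_CON r_CHN r_TRI r_CLO r_POI r_RHA r_AFF r_GRR
theorem r_DFF : DFF_stmt := DFF
theorem r_REG : REG_stmt := REG r_CON r_EXI r_SUP r_PER r_MES
theorem r_MCV : MCV_stmt := MCV r_CON
theorem r_FNL : FNL_stmt := FNL r_CON r_STR r_SSA r_REG r_MCV r_DFF r_PER r_MES

end Pool.Agent.MLG
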