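import Mathlib

/-!
# MP_84f457_gt, project mlg: the isoperimetric profile of a metric Lie group. Definitions

`V` is a finite-dimensional real inner product space with a second structure, a group structure `x * y`, `x⁻¹`, `1` (of course
`1 : V` need not be the origin of `V`) for which multiplication and inversion are smooth (`IsLie V`). So `V` is a Lie group
diffeomorphic to `ℝ^n`, `n = finrank ℝ V`, and every Lie group diffeomorphic to `ℝ^n` is of this form. The tangent space at `1`
is `V` with its inner product, and the Riemannian metric is the left-invariant metric which extends it.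
-/

set_option autoImplicit false
set_option linter.unusedSectionVars false

namespace Pool.Agent.MLG

open MeasureTheory Set Filter Topology Module
open scoped ENNReal ContDiff

section defs

/-- multiplication and inversion are smooth -/
def IsLie (V : Type) [NormedAddCommGroup V] [InnerProductSpace ℝ V] [Group V] : Prop :=
  ContDiff ℝ ∞ (fun p : V × V => p.1 * p.2) ∧ ContDiff ℝ ∞ (fun x : V => x⁻¹)

variable {V : Type} [NormedAddCommGroup V] [InnerProductSpace ℝ V] [FiniteDimensional ℝ V] [MeasurableSpace V]
  [BorelSpace V] [Group V]

/-- `fr x : T₁ → T_x` is the differential at `1` of the left translation by `x`. It is an isometry of `V = T₁` onto the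
tangent space at `x` with its Riemannian scalar product; `x ↦ fr x v` is the left-invariant vector field with value `v` at `1` -/
noncomputable def fr (x : V) : V →L[ℝ] V := fderiv ℝ (fun y : V => x * y) 1

/-- the density of the Riemannian volume with respect to the Lebesgue measure -/
noncomputable def rho (x : V) : ℝ := |(fr x).det|⁻¹

variable (V) in
/-- the Riemannian volume -/
noncomputable def vol : Measure V := volume.withDensity (fun x => ENNReal.ofReal (rho x))

/-- the Riemannian divergence of the vector field `Y x = fr x (a x)`: `(1 / ρ) ∑_j ∂_j (ρ Y_j)` -/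
noncomputable def dvg (a : V → V) (x : V) : ℝ :=
  (rho x)⁻¹ * LinearMap.trace ℝ V (fderiv ℝ (fun y => rho y • fr y (a y)) x : V →L[ℝ] V)

/-- `x ↦ fr x (a x)` is a vector field of class `C¹` with compact support and length at most one -/
structure Adm (a : V → V) : Prop where
  smooth : ContDiff ℝ 1 a
  supp : HasCompactSupport a
  le_one : ∀ x, ‖a x‖ ≤ 1

/-- the perimeter (De Giorgi): the supremum of the integrals over `E` of the divergences of the `C¹` fields with compact
support and length at most one. It is the area of the boundary if the boundary is piecewise smooth -/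
noncomputable def per (E : Set V) : ℝ≥0∞ :=
  ⨆ (a : V → V) (_ : Adm a), ENNReal.ofReal (∫ x in E, dvg a x ∂(vol V))

/-- the total variation of a function -/
noncomputable def tv (u : V → ℝ) : ℝ≥0∞ :=
  ⨆ (a : V → V) (_ : Adm a), ENNReal.ofReal (∫ x, u x * dvg a x ∂(vol V))

/-- the Riemannian gradient of `f` at `x` is `fr x (gr f x)` -/
noncomputable def gr (f : V → ℝ) (x : V) : V :=
  (InnerProductSpace.toDual ℝ V).symm ((fderiv ℝ f x).comp (fr x))

/-- left convolution -/
noncomputable def cv (m u : V → ℝ) (x : V) : ℝ := ∫ g, m g * u (g⁻¹ * x) ∂(vol V)

/-- smooth probability densities with compact support -/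
structure Mol (m : V → ℝ) : Prop where
  smooth : ContDiff ℝ ∞ m
  supp : HasCompactSupport m
  nonneg : ∀ x, 0 ≤ m x
  int : ∫ x, m x ∂(vol V) = 1

/-- measurable functions with values in `[0, 1]` -/
structure IsU (u : V → ℝ) : Prop where
  meas : Measurable u
  nonneg : ∀ x, 0 ≤ u x
  le_one : ∀ x, u x ≤ 1

/-- smooth functions with compact support and values in `[0, 1]` -/
structure Cut (z : V → ℝ) : Prop where
  smooth : ContDiff ℝ ∞ z
  supp : HasCompactSupport z
  nonneg : ∀ x, 0 ≤ z x
  le_one : ∀ x, z x ≤ 1

/-- the left translate of the ball about `1` -/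
def bl (x : V) (r : ℝ) : Set V := (fun y => x * y) '' Metric.ball (1 : V) r

/-- indicator functions -/
noncomputable abbrev ind (E : Set V) : V → ℝ := E.indicator (fun _ => (1 : ℝ))

/-- local convergence in `L¹` -/
def L1 (u : ℕ → V → ℝ) (w : V → ℝ) : Prop :=
  ∀ C : Set V, IsCompact C → Tendsto (fun k => ∫⁻ x in C, ENNReal.ofReal |u k x - w x| ∂(vol V)) atTop (𝓝 0)

variable (V) in
/-- the infimum of the perimeters of the measurable sets of volume `v` -/
noncomputable def prof (v : ℝ) : ℝ≥0∞ :=
  ⨅ (E : Set V) (_ : MeasurableSet E) (_ : vol V E = ENNReal.ofReal v), per E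

variable (V) in
/-- the same, as a real number -/
noncomputable def Ip (v : ℝ) : ℝ := (prof V v).toReal

/-- compact regions: compact sets which are the closures of their interiors -/
def IsRegion (E : Set V) : Prop := IsCompact E ∧ closure (interior E) = E

/-- a solution of the isoperimetric problem: a compact region `E` which has the least perimeter among all compact regions of
the same volume -/
def IsSol (E : Set V) : Prop :=
  IsRegion E ∧ ∀ F : Set V, IsRegion F → vol V F = vol V E → per E ≤ per F

variable (V) in
/-- the isoperimetric profile: the infimum of the perimeters of the compact regions of volume `v` -/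
noncomputable def iso (v : ℝ) : ℝ≥0∞ :=
  ⨅ (E : Set V) (_ : IsRegion E) (_ : vol V E = ENNReal.ofReal v), per E

end defs

/-! Some immediate facts -/

section basic

variable {V : Type} [NormedAddCommGroup V] [InnerProductSpace ℝ V] [FiniteDimensional ℝ V] [MeasurableSpace V]
  [BorelSpace V] [Group V]

theorem top (h : IsLie V) : IsTopologicalGroup V where
  continuous_mul := h.1.continuous
  continuous_inv := h.2.continuous

theorem smooth_left (h : IsLie V) (g : V) : ContDiff ℝ ∞ (fun x : V => g * x) :=
  h.1.comp (contDiff_const.prodMk contDiff_id)

theorem smooth_right (h : IsLie V) (g : V) : ContDiff ℝ ∞ (fun x : V => x * g) :=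
  h.1.comp (contDiff_id.prodMk contDiff_const)

theorem inner_gr (f : V → ℝ) (x v : V) : inner ℝ (gr f x) v = fderiv ℝ f x (fr x v) := by
  unfold gr
  rw [InnerProductSpace.toDual_symm_apply]
  rfl

end basic

end Pool.Agent.MLG
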