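import Pool.Agent.helper17.MLG.Defs

/-!
# MP_84f457_gt, project mlg: the isoperimetric profile of a metric Lie group. The rows

RULES. Row `mlg:XXX` is a file `Pool/Agent/<seat>/MLG/XXX.lean`, namespace `Pool.Agent.MLG`, which imports this file and contains the theorem
`theorem XXX (hYYY : YYY_stmt) ... : XXX_stmt`, whose EXACT line is in the lock note (other rows only as hypotheses, in the order given after `from`; an
unused hypothesis may stay). Auxiliary lemmas have the prefix `XXX_`. No `convert`, `congr!`, `native_decide`, no double quotes. The docstring contains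
a complete proof.

`V` carries two structures: a finite-dimensional inner product space and a Lie group (`x * y`, `x⁻¹`, `1`); `1 : V` is the unit of the group, the product of the
group has nothing to do with the addition. `top h : IsTopologicalGroup V`, `smooth_left h g`, `smooth_right h g`, `inner_gr` are proved in `Defs.lean`
(use `have := top hV`). All measures are `vol V` (left Haar measure by MES), except in block A. Under the group `vol V` is left-invariant, but not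
right-invariant in general.

PLAN. Concavity of the profile: for `E` of volume `v` there is `g` with `vol (E ∩ g E) = v - s`, `vol (E ∪ g E) = v + s`, and the perimeter is submodular and left-invariant.
Strict concavity: if the profile `I` is affine on `[a, b]`, let `S` be a compact minimiser of volume `v ∈ (a, b)`, and mollify by LEFT convolution twice: `h = m₂ * 1_S`, `u = m * h`.
All superlevel sets of `u` have volumes in `(a, b)`, so the coarea inequality gives `∫ |∇u| ≥ I(v) = per S ≥ ∫ |∇h|`: equality in `∫ |m * ∇h| ≤ ∫ m * |∇h|`. So the direction of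
`∇h` is locally constant (in the left-invariant frame); the restriction of `dh` to the open set where it has a fixed direction `ν` is a closed one-form with compact support, so it is `dΨ`
with `Ψ` of compact support, and the derivative of `Ψ` in the direction of the left-invariant field `ν` is `≥ 0` and has integral 0 (right Haar measure): contradiction.
-/

set_option autoImplicit false
set_option linter.unusedSectionVars false

namespace Pool.Agent.MLG

open MeasureTheory Set Filter Topology Module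
open scoped ENNReal ContDiff

/-! ### Block A. The group -/

/-- **FRA** (short to medium). Frame. `fr x = D₂ m (x, 1)`, `m` the multiplication, so `fr` is smooth (`ContDiff.fderiv`, or `fr x v = fderiv m (x, 1) (0, v)`). `fr 1 = id` because `1 * y = y`. Differentiate `(g * x) * y = g * (x * y)` at
`y = 1` (chain rule): the third claim. With `g = x⁻¹`: `id = fr 1 = (fderiv (x⁻¹ * ·) x).comp (fr x)`, so `det (fr x) ≠ 0`; `x ↦ det (fr x)` is continuous on the connected space `V` and equal to 1 at `x = 1`, so it is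
positive. `rho x = (det (fr x))⁻¹` is smooth. Last claim: `det` of the third claim (`|det (fr (g x))| = |det (D L_g (x))| |det (fr x)|`, nonzero). -/
def FRA_stmt : Prop := ∀ (V : Type) [NormedAddCommGroup V] [InnerProductSpace ℝ V] [FiniteDimensional ℝ V] [MeasurableSpace V] [BorelSpace V] [Group V], IsLie V → ContDiff ℝ ∞ (fr : V → V →L[ℝ] V) ∧ fr (1 : V) = ContinuousLinearMap.id ℝ V ∧
  (∀ g x : V, fr (g * x) = (fderiv ℝ (fun y : V => g * y) x).comp (fr x)) ∧ (∀ x : V, 0 < (fr x).det) ∧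
  ContDiff ℝ ∞ (rho : V → ℝ) ∧ (∀ x : V, 0 < rho x) ∧
  ∀ g x : V, rho (g * x) * |(fderiv ℝ (fun y : V => g * y) x).det| = rho x

/-- **MES** (medium; from FRA). `vol V` is a left Haar measure. Left invariance: for measurable `s` (`L_g` is injective, smooth) `vol (g s) = ∫_{g s} ρ = ∫_s ρ(g x) |det D L_g(x)| dx = ∫_s ρ = vol s`
(`MeasureTheory.lintegral_image_eq_lintegral_abs_det_fderiv_mul`, last claim of FRA). Finite on compact sets and positive on open sets: `ρ` is continuous and positive (`IsLocallyFiniteMeasure.withDensity_ofReal`).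
The topology: `top` in Defs. The two absolute continuities: `withDensity_absolutelyContinuous`, `withDensity_absolutelyContinuous'`. -/
def MES_stmt : Prop := ∀ (V : Type) [NormedAddCommGroup V] [InnerProductSpace ℝ V] [FiniteDimensional ℝ V] [MeasurableSpace V] [BorelSpace V] [Group V], IsLie V → (vol V).IsHaarMeasure ∧ vol V ≪ volume ∧ (volume : Measure V) ≪ vol V

/-- **IBP** (medium; from FRA). Integration by parts. `Z = ρ • fr (a ·)` is `C¹` with compact support, `dvg a = ρ⁻¹ tr (DZ)`: continuity and support. `∫ f dvg a dvol = ∫ f tr (DZ) dλ` (`vol = ρ λ`, `ρ > 0`: `integral_withDensity_eq_integral_toReal_smul`),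
`tr (D(f Z)) = f tr (DZ) + Df(Z)`, and `∫ tr (D(f Z)) dλ = 0`, because `tr (DW) = ∑_i ⟪b_i, DW(b_i)⟫` for an orthonormal basis (`LinearMap.trace_eq_sum_inner`) and the integral of a directional derivative of a `C¹` function with
compact support vanishes (`integral_bilinear_hasLineDerivAt_right_eq_neg_left_of_integrable` with a constant function, or any other version). `Df(Z) = ρ Df(fr x (a x)) = ρ ⟪gr f x, a x⟫` (`inner_gr`). -/
def IBP_stmt : Prop := ∀ (V : Type) [NormedAddCommGroup V] [InnerProductSpace ℝ V] [FiniteDimensional ℝ V] [MeasurableSpace V] [BorelSpace V] [Group V], IsLie V → ∀ a : V → V, ContDiff ℝ 1 a → HasCompactSupport a → Continuous (dvg a) ∧ HasCompactSupport (dvg a) ∧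
  ∀ f : V → ℝ, ContDiff ℝ 1 f → ∫ x, f x * dvg a x ∂(vol V) = - ∫ x, inner ℝ (gr f x) (a x) ∂(vol V)

/-- **GRR** (short to medium; from FRA). Rules for the gradient; `gr f x` is characterised by `⟪gr f x, v⟫ = Df(x)(fr x v)` (`inner_gr`). Smoothness: `toDual.symm` is a continuous linear (isometric) map, composed with `x ↦ (Df x).comp (fr x)`. Product, sum, chain rule: rules for `fderiv`. `gr f x = 0 ↔ Df x = 0`: `fr x` is
surjective (its determinant is not 0). Last claim: `D(f ∘ L_g)(x)(fr x v) = Df(g x)(D L_g(x) (fr x v)) = Df(g x)(fr (g x) v)` by FRA. -/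
def GRR_stmt : Prop := ∀ (V : Type) [NormedAddCommGroup V] [InnerProductSpace ℝ V] [FiniteDimensional ℝ V] [MeasurableSpace V] [BorelSpace V] [Group V], IsLie V → (∀ f : V → ℝ, ContDiff ℝ ∞ f → ContDiff ℝ ∞ (gr f)) ∧ (∀ f : V → ℝ, ContDiff ℝ 1 f → Continuous (gr f)) ∧
  (∀ f h : V → ℝ, Differentiable ℝ f → Differentiable ℝ h → ∀ x, gr (fun y => f y * h y) x = f x • gr h x + h x • gr f x) ∧
  (∀ f h : V → ℝ, Differentiable ℝ f → Differentiable ℝ h → ∀ x, gr (fun y => f y + h y) x = gr f x + gr h x) ∧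
  (∀ (f : V → ℝ) (η : ℝ → ℝ), Differentiable ℝ f → Differentiable ℝ η → ∀ x, gr (fun y => η (f y)) x = deriv η (f x) • gr f x) ∧
  (∀ (f : V → ℝ) (x : V), gr f x = 0 ↔ fderiv ℝ f x = 0) ∧ (∀ f : V → ℝ, HasCompactSupport f → HasCompactSupport (gr f)) ∧
  ∀ f : V → ℝ, Differentiable ℝ f → ∀ g x : V, gr (fun y => f (g * y)) x = gr f (g * x)

/-- **DLI** (medium; from MES, IBP, GRR). The divergence is left-invariant. Let `a' y = a (g y)`, again `C¹` with compact support. For every smooth `f` with compact support: `∫ f dvg a' = - ∫ ⟪gr f x, a (g x)⟫ = - ∫ ⟪gr f (g⁻¹ y), a y⟫ dvol(y)` (left invariance of `vol V`)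
`= - ∫ ⟪gr (f ∘ L_{g⁻¹}) y, a y⟫ = ∫ f(g⁻¹ y) dvg a y = ∫ f(x) dvg a (g x)` (IBP, GRR). So the continuous function `dvg a' - (dvg a)(g ·)` is 0 almost everywhere (`ae_eq_zero_of_integral_contDiff_smul_eq_zero`), hence everywhere
(`Continuous.ae_eq_iff_eq`). -/
def DLI_stmt : Prop := ∀ (V : Type) [NormedAddCommGroup V] [InnerProductSpace ℝ V] [FiniteDimensional ℝ V] [MeasurableSpace V] [BorelSpace V] [Group V], IsLie V → ∀ a : V → V, ContDiff ℝ 1 a → HasCompactSupport a → ∀ g x : V, dvg (fun y => a (g * y)) x = dvg a (g * x)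

/-! ### Block B. Functions: mollification, total variation, coarea inequality -/

/-- **CSM** (medium; from MES). Left mollification is smooth. Substitute `g = x t` (left invariance): `cv m u x = ∫ m(x t) u(t⁻¹) dvol(t)`. Put `f t = u(t⁻¹)` (measurable, bounded, so locally integrable) and `K(x, t) = m(x t)`, smooth in `(x, t)`; for `x` in a bounded open set `s`,
`K(x, t) = 0` unless `t ∈ (closure s)⁻¹ (tsupport m)`, a compact set. Smoothness in `x`: `contDiffOn_convolution_right_with_param` (at `q.2 = 0`, `g p t' = K(p, -t')`), or differentiation under the integral. `0 ≤ cv m u ≤ 1` as `m ≥ 0`, `∫ m = 1`. -/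
def CSM_stmt : Prop := ∀ (V : Type) [NormedAddCommGroup V] [InnerProductSpace ℝ V] [FiniteDimensional ℝ V] [MeasurableSpace V] [BorelSpace V] [Group V], IsLie V → ∀ m u : V → ℝ, Mol m → IsU u → ContDiff ℝ ∞ (cv m u) ∧ IsU (cv m u)

/-- **CTV** (medium; from MES, IBP, DLI). Mollification decreases the total variation. For `Adm a`: by Fubini (`m` and `dvg a` are continuous with compact support, `u` is bounded) and left invariance `∫ cv m u dvg a = ∫ m(g) ∫ u(g⁻¹ x) dvg a (x) dx dg = ∫ m(g) ∫ u(y) dvg a (g y) dy dg = ∫ m(g) ∫ u dvg (a ∘ L_g) dg ≤ ∫ m(g) tv u dg = tv u`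
(`a ∘ L_g` is again admissible; DLI). If `tv u = ⊤` nothing to do. -/
def CTV_stmt : Prop := ∀ (V : Type) [NormedAddCommGroup V] [InnerProductSpace ℝ V] [FiniteDimensional ℝ V] [MeasurableSpace V] [BorelSpace V] [Group V], IsLie V → ∀ m u : V → ℝ, Mol m → IsU u → tv (cv m u) ≤ tv u

/-- **CVI** (short to medium; from MES). `cv m u x = ∫ m(g) u(g⁻¹ x) dg ≥ 0`, `ofReal` of it is the lintegral (`ofReal_integral_eq_lintegral_ofReal`), Tonelli, left invariance and `∫ m = 1`. -/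
def CVI_stmt : Prop := ∀ (V : Type) [NormedAddCommGroup V] [InnerProductSpace ℝ V] [FiniteDimensional ℝ V] [MeasurableSpace V] [BorelSpace V] [Group V], IsLie V → ∀ m u : V → ℝ, Mol m → IsU u → ∫⁻ x, ENNReal.ofReal (cv m u x) ∂(vol V) = ∫⁻ x, ENNReal.ofReal (u x) ∂(vol V)

/-- **MOL** (short; from MES). `ContDiffBump` about `1` with outer radius `r` such that the closed ball of radius `r` is contained in `U`, divided by its integral with respect to `vol V` (positive, as `vol V` is positive on open sets). -/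
def MOL_stmt : Prop := ∀ (V : Type) [NormedAddCommGroup V] [InnerProductSpace ℝ V] [FiniteDimensional ℝ V] [MeasurableSpace V] [BorelSpace V] [Group V], IsLie V → ∀ U ∈ 𝓝 (1 : V), ∃ m : V → ℝ, Mol m ∧ tsupport m ⊆ U ∧ 0 < m 1

/-- **CVL** (medium; from MES). Approximation. Let `C` be compact and `U₀` a compact neighbourhood of `1`, `C' = U₀⁻¹ C` (compact), `f = u 1_{C'}` (integrable). If `tsupport (m k) ⊆ U₀` then for `x ∈ C`: `|cv (m k) u x - u x| ≤ ∫ m_k(g) |f(g⁻¹ x) - f(x)| dg` (also `x ∈ C'`), so by Tonelli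
`∫_C |cv (m k) u - u| ≤ ∫ m_k(g) ‖f(g⁻¹ ·) - f‖₁ dg`. The map `g ↦ f(g⁻¹ ·) ∈ L¹(vol V)` is continuous (Mathlib `MeasureTheory/Function/LpSpace/ContinuousCompMeasurePreserving.lean`, or `DomAct/Continuous.lean`; or approximate `f` in `L¹` by a continuous function
with compact support, or by indicator functions and `tendsto_measure_symmDiff_preimage_nhds_zero`). -/
def CVL_stmt : Prop := ∀ (V : Type) [NormedAddCommGroup V] [InnerProductSpace ℝ V] [FiniteDimensional ℝ V] [MeasurableSpace V] [BorelSpace V] [Group V], IsLie V → ∀ (m : ℕ → V → ℝ) (u : V → ℝ), (∀ k, Mol (m k)) → (∀ U ∈ 𝓝 (1 : V), ∀ᶠ k in atTop, tsupport (m k) ⊆ U) → IsU u →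
  L1 (fun k => cv (m k) u) u

/-- **APX** (short; from CSM, CTV, MOL, CVL). Take `m k` from MOL for the ball of radius `1 / (k + 1)` about `1` and `w k = cv (m k) u`. -/
def APX_stmt : Prop := ∀ (V : Type) [NormedAddCommGroup V] [InnerProductSpace ℝ V] [FiniteDimensional ℝ V] [MeasurableSpace V] [BorelSpace V] [Group V], IsLie V → ∀ u : V → ℝ, IsU u → ∃ w : ℕ → V → ℝ, (∀ k, ContDiff ℝ ∞ (w k) ∧ IsU (w k) ∧ tv (w k) ≤ tv u) ∧ L1 w u

/-- **TVS** (medium; from IBP, GRR, MES). Total variation of a smooth function. `≤`: for `Adm a`, `∫ w dvg a = - ∫ ⟪gr w, a⟫ ≤ ∫ ‖gr w‖` over the support of `a`. `≥`: let `χ_k` be smooth with compact support, values in `[0, 1]` and equal to 1 on the ball of radius `k` about 0, and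
`a_k = - (χ_k / √(‖gr w‖² + 1/(k+1))) • gr w`; this is admissible (`gr w` is smooth, the argument of the root is positive) and `∫ w dvg a_k = ∫ χ_k ‖gr w‖² / √(‖gr w‖² + 1/(k+1))`. The integrand is nonnegative and tends to `‖gr w‖` pointwise; Fatou
(`lintegral_liminf_le`). -/
def TVS_stmt : Prop := ∀ (V : Type) [NormedAddCommGroup V] [InnerProductSpace ℝ V] [FiniteDimensional ℝ V] [MeasurableSpace V] [BorelSpace V] [Group V], IsLie V → ∀ w : V → ℝ, ContDiff ℝ ∞ w → tv w = ∫⁻ x, ‖gr w x‖ₑ ∂(vol V)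

/-- **LSC** (short to medium; from IBP, MES). Lower semicontinuity. For `Adm a` with compact support `C` and `|dvg a| ≤ M`: `|∫ u_k dvg a - ∫ w dvg a| ≤ M ∫_C |u_k - w| → 0`, so `ofReal ∫ w dvg a = lim ofReal ∫ u_k dvg a ≤ liminf tv (u k)`. -/
def LSC_stmt : Prop := ∀ (V : Type) [NormedAddCommGroup V] [InnerProductSpace ℝ V] [FiniteDimensional ℝ V] [MeasurableSpace V] [BorelSpace V] [Group V], IsLie V → ∀ (u : ℕ → V → ℝ) (w : V → ℝ), (∀ k, IsU (u k)) → IsU w → L1 u w → tv w ≤ liminf (fun k => tv (u k)) atTop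

/-- **SUB** (medium; from APX, TVS, LSC, GRR). Submodularity. First for smooth `f, h` with values in `[0, 1]`: `‖gr (f h)‖ + ‖gr (f + h - f h)‖ ≤ (h ‖gr f‖ + f ‖gr h‖) + ((1 - h) ‖gr f‖ + (1 - f) ‖gr h‖) = ‖gr f‖ + ‖gr h‖`, so by TVS `tv (f h) + tv (f + h - f h) ≤ tv f + tv h`. In general take `f_k → u`, `h_k → w` from APX;
then `f_k h_k → u w` and `f_k + h_k - f_k h_k → u + w - u w` in `L1` (`|f_k h_k - u w| ≤ |f_k - u| + |h_k - w|`), all functions are `IsU`; LSC and `liminf a + liminf b ≤ liminf (a + b)`. -/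
def SUB_stmt : Prop := ∀ (V : Type) [NormedAddCommGroup V] [InnerProductSpace ℝ V] [FiniteDimensional ℝ V] [MeasurableSpace V] [BorelSpace V] [Group V], IsLie V → ∀ u w : V → ℝ, IsU u → IsU w → tv (fun x => u x * w x) + tv (fun x => u x + w x - u x * w x) ≤ tv u + tv w

/-- **CTT** (medium; from APX, TVS, LSC, GRR, MES). Cutting with a function. For smooth `f` with values in `[0, 1]`: `‖gr (z f)‖ ≤ z ‖gr f‖ + f ‖gr z‖`, `‖gr ((1 - z) f)‖ ≤ (1 - z) ‖gr f‖ + f ‖gr z‖`, so by TVS `tv (z f) + tv ((1 - z) f) ≤ tv f + 2 ∫⁻ f ‖gr z‖`. In general take `f_k → u` from APX: `z f_k → z u`, `(1 - z) f_k → (1 - z) u` in `L1`, and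
`∫⁻ f_k ‖gr z‖ → ∫⁻ u ‖gr z‖` because `gr z` is continuous with compact support; LSC. -/
def CTT_stmt : Prop := ∀ (V : Type) [NormedAddCommGroup V] [InnerProductSpace ℝ V] [FiniteDimensional ℝ V] [MeasurableSpace V] [BorelSpace V] [Group V], IsLie V → ∀ u z : V → ℝ, IsU u → Cut z → tv (fun x => z x * u x) + tv (fun x => (1 - z x) * u x) ≤
  tv u + 2 * ∫⁻ x, ENNReal.ofReal (u x) * ‖gr z x‖ₑ ∂(vol V)

/-- **COA** (medium; from TVS, LSC, GRR, MES). Coarea inequality (the function `t ↦ per {t < w}` need not be measurable; `∫⁻` of any function). Let `η = Real.smoothTransition` (smooth, monotone, 0 on `(-∞, 0]`, 1 on `[1, ∞)`), `w_{k,t} = η(k (w - t))`, `k ≥ 1`. As `k → ∞`, `w_{k,t} → ind {t < w}` pointwise (also at points where `w = t`: both are 0), so in `L1` (dominated convergence), and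
`per {t < w} = tv (ind {t < w}) ≤ liminf_k tv (w_{k,t}) = liminf_k G_k(t)`, `G_k(t) = ∫⁻ k η'(k (w - t)) ‖gr w‖` (`∫_E dvg a = ∫ ind E dvg a`). `G_k` is measurable and `∫⁻ G_k(t) dt ≤ ∫⁻ ‖gr w‖` by Tonelli, since `∫_ℝ k η'(k (s - t)) dt = 1`. Fatou (`lintegral_liminf_le`). -/
def COA_stmt : Prop := ∀ (V : Type) [NormedAddCommGroup V] [InnerProductSpace ℝ V] [FiniteDimensional ℝ V] [MeasurableSpace V] [BorelSpace V] [Group V], IsLie V → ∀ w : V → ℝ, ContDiff ℝ ∞ w → IsU w → ∫⁻ t in Ioo (0 : ℝ) 1, per {x | t < w x} ≤ ∫⁻ x, ‖gr w x‖ₑ ∂(vol V)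

/-- **CUT** (medium; from CTT, LSC, GRR, MES). Cutting a set. `η` as in COA, `z_{k,t} = η(k (z - t))`, `0 < t < 1`: this is a `Cut` (it vanishes where `z = 0`). CTT for `u = ind A`: `tv (z_{k,t} ind A) + tv ((1 - z_{k,t}) ind A) ≤ per A + 2 S_k(t)`, `S_k(t) = ∫⁻_A k η'(k (z - t)) ‖gr z‖`. As `k → ∞`, `z_{k,t} ind A → ind (A ∩ {t < z})` and
`(1 - z_{k,t}) ind A → ind (A \ {t < z})` pointwise and in `L1`. LSC: `per (A ∩ {t < z}) + per (A \ {t < z}) ≤ per A + 2 liminf_k S_k(t)` for all `t ∈ (0, 1)`. Tonelli and Fatou: `∫_0^1 liminf_k S_k(t) dt ≤ ∫⁻_A ‖gr z‖`, so there is `t ∈ (0, 1)` with `liminf_k S_k(t) ≤ ∫⁻_A ‖gr z‖`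
(`exists_le_lintegral` for the restriction of the Lebesgue measure to `(0, 1)`, or by contradiction). -/
def CUT_stmt : Prop := ∀ (V : Type) [NormedAddCommGroup V] [InnerProductSpace ℝ V] [FiniteDimensional ℝ V] [MeasurableSpace V] [BorelSpace V] [Group V], IsLie V → ∀ (A : Set V) (z : V → ℝ), MeasurableSet A → Cut z → ∃ t ∈ Ioo (0 : ℝ) 1,
  per (A ∩ {x | t < z x}) + per (A \ {x | t < z x}) ≤ per A + 2 * ∫⁻ x in A, ‖gr z x‖ₑ ∂(vol V)

/-! ### Block C. Perimeter of sets, concavity of the profile -/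

/-- **PER** (short to medium; from MES, IBP, DLI, SUB). Elementary properties. (1) `∫_E dvg a = ∫ ind E dvg a`. (2) `setIntegral_congr_set`. (3) `∫ dvg a = 0` (IBP with `f = 1`), so `∫_{Eᶜ} dvg a = - ∫_E dvg a = ∫_E dvg (-a)`. (4) `∫_{g E} dvg a = ∫_E dvg a (g x) = ∫_E dvg (a ∘ L_g)` (left invariance, DLI), and `a ↦ a ∘ L_g` is a bijection of the admissible functions.
(5) SUB for `ind A`, `ind B`: `ind A ind B = ind (A ∩ B)`, `ind A + ind B - ind A ind B = ind (A ∪ B)`. -/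
def PER_stmt : Prop := ∀ (V : Type) [NormedAddCommGroup V] [InnerProductSpace ℝ V] [FiniteDimensional ℝ V] [MeasurableSpace V] [BorelSpace V] [Group V], IsLie V → (∀ E : Set V, MeasurableSet E → per E = tv (ind E)) ∧ (∀ E F : Set V, E =ᵐ[vol V] F → per E = per F) ∧
  (∀ E : Set V, MeasurableSet E → per Eᶜ = per E) ∧
  (∀ (g : V) (E : Set V), MeasurableSet E → per ((fun x => g * x) '' E) = per E) ∧
  ∀ A B : Set V, MeasurableSet A → MeasurableSet B → per (A ∩ B) + per (A ∪ B) ≤ per A + per B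

/-- **OVL** (medium; from MES). Overlap. `φ(g) = vol (E ∩ g E)` is continuous (`tendsto_measure_symmDiff_preimage_nhds_zero` for the maps `x ↦ g⁻¹ x`, `|φ(g) - φ(g')| ≤ vol (g E ∆ g' E)`), `φ(1) = vol E`. For `δ > 0` there is a compact `K ⊆ E` with `vol (E \ K) < δ`, and `g ∉ K K⁻¹` (`V` is not compact): `K ∩ g K = ∅`, so `φ(g) ≤ 2 δ`. `V` is connected: intermediate
value theorem (`mem_range_of_exists_le_of_exists_ge` or the like, for the real function `(φ g).toReal`). -/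
def OVL_stmt : Prop := ∀ (V : Type) [NormedAddCommGroup V] [InnerProductSpace ℝ V] [FiniteDimensional ℝ V] [MeasurableSpace V] [BorelSpace V] [Group V], IsLie V → 1 ≤ finrank ℝ V → ∀ E : Set V, MeasurableSet E → vol V E ≠ ⊤ → ∀ c : ℝ≥0∞, 0 < c → c ≤ vol V E →
  ∃ g : V, vol V (E ∩ (fun x => g * x) '' E) = c

/-- **FIN** (medium; from MES, GRR, COA, PER, OVL). Sets of finite perimeter of every volume. `vol V univ = ∞` (`measure_univ_of_isMulLeftInvariant`; `V` is not compact), so a ball `K` about 0 has volume `≥ v`. Let `w` be smooth with compact support, values in `[0, 1]`, 1 on `K` (`ContDiffBump`). `∫⁻ ‖gr w‖ < ∞`, so by COA there is `t ∈ (0, 1)` with `per {t < w} < ∞`; `A = {t < w} ⊇ K` is bounded and open. OVL: `g` with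
`vol (A ∩ g A) = v`; `per (A ∩ g A) ≤ 2 per A` (PER). -/
def FIN_stmt : Prop := ∀ (V : Type) [NormedAddCommGroup V] [InnerProductSpace ℝ V] [FiniteDimensional ℝ V] [MeasurableSpace V] [BorelSpace V] [Group V], IsLie V → 1 ≤ finrank ℝ V → ∀ v : ℝ, 0 < v → ∃ E : Set V, MeasurableSet E ∧ vol V E = ENNReal.ofReal v ∧ per E < ⊤

/-- **MID** (medium; from MES, PER, OVL, FIN). Let `ε > 0`, `E` measurable, `vol E = v`, `per E ≤ prof v + ε < ∞` (FIN). OVL: `g` with `vol (E ∩ g E) = v - s`, so `vol (E ∪ g E) = v + s`. `prof (v - s) + prof (v + s) ≤ per (E ∩ g E) + per (E ∪ g E) ≤ 2 per E ≤ 2 prof v + 2 ε`. -/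
def MID_stmt : Prop := ∀ (V : Type) [NormedAddCommGroup V] [InnerProductSpace ℝ V] [FiniteDimensional ℝ V] [MeasurableSpace V] [BorelSpace V] [Group V], IsLie V → 1 ≤ finrank ℝ V → ∀ v s : ℝ, 0 < s → s < v → Ip V (v - s) + Ip V (v + s) ≤ 2 * Ip V v

/-- **RAN** (short to medium). Real analysis. Monotone: if `f b < f a`, `a < b`, `d = b - a`, then `f (a + (k + 1) d) - f (a + k d) ≤ f b - f a < 0` for all `k` by induction, so `f` is negative somewhere. Concave: by induction on `k`, `f ((j x + (2^k - j) y) / 2^k) ≥ (j f x + (2^k - j) f y) / 2^k`; for `x < y` and `p ∈ (0, 1)` choose dyadic `q ≥ p` (weight of `x`) tending to `p`: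
`f (p x + (1 - p) y) ≥ f (q x + (1 - q) y) ≥ q f x + (1 - q) f y` since `f` is monotone. (Any other proof, e.g. monotone and midpoint concave implies continuous.) -/
def RAN_stmt : Prop := ∀ f : ℝ → ℝ, (∀ v, 0 < v → 0 ≤ f v) → (∀ v s, 0 < s → s < v → f (v - s) + f (v + s) ≤ 2 * f v) →
  ConcaveOn ℝ (Ioi 0) f ∧ MonotoneOn f (Ioi 0)

/-- **CON** (short; from MID, RAN, FIN). `RAN` for `Ip V`. `prof V v < ⊤` by FIN. -/
def CON_stmt : Prop := ∀ (V : Type) [NormedAddCommGroup V] [InnerProductSpace ℝ V] [FiniteDimensional ℝ V] [MeasurableSpace V] [BorelSpace V] [Group V], IsLie V → 1 ≤ finrank ℝ V → ConcaveOn ℝ (Ioi 0) (Ip V) ∧ MonotoneOn (Ip V) (Ioi 0) ∧ ∀ v : ℝ, 0 < v → prof V v = ENNReal.ofReal (Ip V v)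

/-! ### Block R. Right translations, isoperimetric inequality for small volumes, local compactness -/

/-- **RTM** (short to medium; from MES). The image of `vol V` under `x ↦ x c` is left-invariant, so it is `k(c) • vol V` (uniqueness of the Haar measure, e.g. `Measure.isHaarMeasure_map_...`, `isMulLeftInvariant_eq_smul`, or the modular character). With `K` the closed unit ball about `1`: `k(c) vol K = vol (K c⁻¹) ≤ vol (K K⁻¹) < ∞`, so `k(c) ≤ C = vol (K K⁻¹) / vol K`.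
`∫⁻ f(x c) = k(c) ∫⁻ f`. -/
def RTM_stmt : Prop := ∀ (V : Type) [NormedAddCommGroup V] [InnerProductSpace ℝ V] [FiniteDimensional ℝ V] [MeasurableSpace V] [BorelSpace V] [Group V], IsLie V → ∃ C : ℝ, 0 < C ∧ ∀ f : V → ℝ≥0∞, Measurable f → ∀ c : V, ‖c - 1‖ ≤ 1 →
  ∫⁻ x, f (x * c) ∂(vol V) ≤ ENNReal.ofReal C * ∫⁻ x, f x ∂(vol V)

/-- **RTS** (medium; from FRA, MES, RTM). Let `c(s) = 1 + s (g - 1)`, `0 ≤ s ≤ 1`, `‖g - 1‖ ≤ 1 = r₀`. `d/ds u(x c(s)) = Du(x c(s)) (D L_x(c(s)) (g - 1))` and `D L_x(c) = fr (x c) ∘ (fr c)⁻¹` by FRA (third claim), so this is `⟪gr u (x c(s)), (fr c(s))⁻¹ (g - 1)⟫`, of absolute value `≤ C₁ ‖g - 1‖ ‖gr u (x c(s))‖`, where `C₁` bounds `‖(fr c)⁻¹‖ = ‖D L_{c⁻¹}(c)‖`, `‖c - 1‖ ≤ 1`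
(continuity on a compact set). So `|u(x g) - u(x)| ≤ C₁ ‖g - 1‖ ∫_0^1 ‖gr u (x c(s))‖ ds`; Tonelli and RTM. -/
def RTS_stmt : Prop := ∀ (V : Type) [NormedAddCommGroup V] [InnerProductSpace ℝ V] [FiniteDimensional ℝ V] [MeasurableSpace V] [BorelSpace V] [Group V], IsLie V → ∃ C r₀ : ℝ, 0 < C ∧ 0 < r₀ ∧ ∀ u : V → ℝ, ContDiff ℝ ∞ u → ∀ g : V, ‖g - 1‖ ≤ r₀ →
  ∫⁻ x, ENNReal.ofReal |u (x * g) - u x| ∂(vol V) ≤ ENNReal.ofReal (C * ‖g - 1‖) * ∫⁻ x, ‖gr u x‖ₑ ∂(vol V)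

/-- **RTE** (medium; from RTS, APX, TVS, RTM, PER). The left side is `∫⁻ |ind E (x g) - ind E x|` (its integrand is the indicator function of the union of the two sets). APX: `w_k → ind E` in `L1`, `∫⁻ ‖gr w_k‖ = tv w_k ≤ per E`. For compact `C`: `∫_C |ind E (x g) - ind E x| ≤ ∫_C |ind E - w_k| + ∫ |w_k(x g) - w_k(x)| + ∫_C |w_k(x g) - ind E (x g)|`; the last term is `≤ C' ∫_{C g} |w_k - ind E|` by RTM for the
function `|w_k - ind E| 1_{C g}` (`r₀ ≤ 1`). So it is `≤ C ‖g - 1‖ per E` in the limit; let `C` increase to `V` (closed balls about 0). -/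
def RTE_stmt : Prop := ∀ (V : Type) [NormedAddCommGroup V] [InnerProductSpace ℝ V] [FiniteDimensional ℝ V] [MeasurableSpace V] [BorelSpace V] [Group V], IsLie V → ∃ C r₀ : ℝ, 0 < C ∧ 0 < r₀ ∧ ∀ E : Set V, MeasurableSet E → ∀ g : V, ‖g - 1‖ ≤ r₀ →
  vol V {x | x ∈ E ∧ x * g ∉ E} + vol V {x | x ∉ E ∧ x * g ∈ E} ≤ ENNReal.ofReal (C * ‖g - 1‖) * per E

/-- **AVE** (short to medium; from RTE, MES). `vol (bl x r \ A) = vol {g ∈ ball 1 r : x g ∉ A}` (left invariance). Tonelli: the left side is `∫_{g ∈ ball 1 r} vol {x ∈ A : x g ∉ A} dg ≤ vol (ball 1 r) C r per A` by RTE (`‖g - 1‖ ≤ r ≤ r₀`). -/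
def AVE_stmt : Prop := ∀ (V : Type) [NormedAddCommGroup V] [InnerProductSpace ℝ V] [FiniteDimensional ℝ V] [MeasurableSpace V] [BorelSpace V] [Group V], IsLie V → ∃ C r₀ : ℝ, 0 < C ∧ 0 < r₀ ∧ ∀ A : Set V, MeasurableSet A → ∀ r : ℝ, 0 < r → r ≤ r₀ →
  ∫⁻ x in A, vol V (bl x r \ A) ∂(vol V) ≤ ENNReal.ofReal (C * r) * vol V (Metric.ball (1 : V) r) * per A

/-- **VBL** (short to medium; from FRA, MES). Left invariance: `vol (bl x r) = vol (ball 1 r)`. `ρ` is between two positive constants on the closed ball of radius 1 about `1`, and the Lebesgue measure of `ball 1 r` is `r^n` times that of the unit ball (`Measure.addHaar_ball`). -/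
def VBL_stmt : Prop := ∀ (V : Type) [NormedAddCommGroup V] [InnerProductSpace ℝ V] [FiniteDimensional ℝ V] [MeasurableSpace V] [BorelSpace V] [Group V], IsLie V → ∃ κ₁ κ₂ r₀ : ℝ, 0 < κ₁ ∧ 0 < κ₂ ∧ 0 < r₀ ∧ ∀ (x : V) (r : ℝ), 0 < r → r ≤ r₀ →
  ENNReal.ofReal (κ₁ * r ^ finrank ℝ V) ≤ vol V (bl x r) ∧ vol V (bl x r) ≤ ENNReal.ofReal (κ₂ * r ^ finrank ℝ V)

/-- **ISO** (short to medium; from AVE, VBL). `κ = κ₁ / 2`. If `vol A ≤ κ r^n` then `vol (bl x r \ A) ≥ vol (bl x r) - vol A ≥ vol (ball 1 r) / 2` (`bl 1 r = ball 1 r`), so AVE gives `vol A · vol (ball 1 r) / 2 ≤ C r vol (ball 1 r) per A`; divide (`0 < vol (ball 1 r) < ∞`). The constant is `2 C`. -/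
def ISO_stmt : Prop := ∀ (V : Type) [NormedAddCommGroup V] [InnerProductSpace ℝ V] [FiniteDimensional ℝ V] [MeasurableSpace V] [BorelSpace V] [Group V], IsLie V → ∃ κ C r₀ : ℝ, 0 < κ ∧ 0 < C ∧ 0 < r₀ ∧ ∀ A : Set V, MeasurableSet A → ∀ r : ℝ, 0 < r → r ≤ r₀ →
  vol V A ≤ ENNReal.ofReal (κ * r ^ finrank ℝ V) → vol V A ≤ ENNReal.ofReal (C * r) * per A

/-- **NVA** (short to medium; from AVE, VBL). Choose `r ≤ r₀` with `C r M ≤ v / 2` and `κ = κ₁ r^n / 4`. If `vol (A ∩ bl x r) < κ` for all `x` then `vol (bl x r \ A) ≥ (3/4) vol (ball 1 r)` (`vol (bl x r) = vol (ball 1 r) ≥ κ₁ r^n`) and AVE gives `(3/4) v vol (ball 1 r) ≤ C r M vol (ball 1 r) ≤ (v/2) vol (ball 1 r)`, a contradiction. -/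
def NVA_stmt : Prop := ∀ (V : Type) [NormedAddCommGroup V] [InnerProductSpace ℝ V] [FiniteDimensional ℝ V] [MeasurableSpace V] [BorelSpace V] [Group V], IsLie V → ∀ v M : ℝ, 0 < v → 0 < M → ∃ r κ : ℝ, 0 < r ∧ 0 < κ ∧ ∀ A : Set V, MeasurableSet A → vol V A = ENNReal.ofReal v →
  per A ≤ ENNReal.ofReal M → ∃ x : V, ENNReal.ofReal κ ≤ vol V (A ∩ bl x r)

/-- **LCP** (medium to long; from AVE, PER, VBL, MES). Local compactness. Let `T_r E x = vol (E ∩ bl x r) / vol (ball 1 r) ∈ [0, 1]`. (a) `∫⁻ |ind E - T_r E| ≤ 2 C r per E`: on `E` the integrand is `vol (bl x r \ E) / vol (ball 1 r)`, off `E` it is `vol (bl x r \ Eᶜ) / vol (ball 1 r)`; AVE for `E` and `Eᶜ` (`per Eᶜ = per E`). (b) `T_r E` is continuous in `x` uniformly in `E`: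
`|T_r E x - T_r E x'| ≤ vol (bl x r ∆ bl x' r) / vol (ball 1 r)`, which tends to 0 as `x' → x` (`tendsto_measure_symmDiff_preimage_nhds_zero`). (c) Let `r_j = r₀ / (j + 1)` and `D` a countable dense subset of `V`. The product of the intervals `[0, 1]` over `D × ℕ` is sequentially compact, so there is a subsequence such that `T_{r_j} (E_k) x` converges for all
`x ∈ D`, `j`; by (b) it is a Cauchy sequence for all `x ∈ V`. By dominated convergence `∫_C |T_{r_j} E_k - T_{r_j} E_l| → 0` for every compact `C`; with (a) `ind E_k` is a Cauchy sequence in `L¹(C)` for all `C` (closed balls about 0), so (completeness of `L¹`, a further diagonal subsequence which converges a.e., or `TendstoInMeasure.exists_seq_tendsto_ae`) it converges in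
`L1` and a subsequence converges almost everywhere, so the limit is an indicator function `ind F` (`F = {x : limsup ind E_k x = 1}`). -/
def LCP_stmt : Prop := ∀ (V : Type) [NormedAddCommGroup V] [InnerProductSpace ℝ V] [FiniteDimensional ℝ V] [MeasurableSpace V] [BorelSpace V] [Group V], IsLie V → ∀ (E : ℕ → Set V) (M : ℝ), (∀ k, MeasurableSet (E k)) → (∀ k, per (E k) ≤ ENNReal.ofReal M) →
  ∃ (φ : ℕ → ℕ) (F : Set V), StrictMono φ ∧ MeasurableSet F ∧ L1 (fun k => ind (E (φ k))) (ind F)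

/-! ### Block D. Minimisers -/

/-- **SSA** (short to medium; from CON, ISO). (1) Given `K`, choose `r ≤ r₀` with `C r ≤ 1 / K` (if `K > 0`) and `s = κ r^n`: for `v ≤ s` ISO gives `v ≤ C r per A` for all `A` of volume `v`, so `v ≤ C r Ip v`, `K v ≤ Ip v`. (2) `f = Ip V` is concave and `≥ 0` on `(0, ∞)`, so `f(v) / v` is nonincreasing (`f(v) ≥ (v/w) f(w) + (1 - v/w) f(s)`-type inequality with points `s < v < w`, `s → 0`, `f ≥ 0`).
Strictly decreasing: if `f(v)/v = f(w)/w = κ`, `v < w`, then for `s < v` concavity at `v` between `s` and `w` gives `f(s) ≤ κ s` for all `s < v`, against (1). So `f(v + w) = (v/(v+w)) f(v+w) + (w/(v+w)) f(v+w) < f(v) + f(w)`. -/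
def SSA_stmt : Prop := ∀ (V : Type) [NormedAddCommGroup V] [InnerProductSpace ℝ V] [FiniteDimensional ℝ V] [MeasurableSpace V] [BorelSpace V] [Group V], IsLie V → 1 ≤ finrank ℝ V → (∀ K : ℝ, ∃ s : ℝ, 0 < s ∧ ∀ v, 0 < v → v ≤ s → K * v ≤ Ip V v) ∧
  ∀ v w : ℝ, 0 < v → 0 < w → Ip V (v + w) < Ip V v + Ip V w

/-- **CTF** (medium; from FRA, MES, GRR). Cut-off functions with a uniform bound of the gradient. Let `φ ≥ 0` be smooth with compact support `T` and `∫ φ(y⁻¹) dvol(y) = 1` (a bump function divided by this integral). `K' = K T⁻¹` (compact), `z(x) = ∫_{K'} φ(y⁻¹ x) dvol(y)`. `0 ≤ z ≤ 1` (replace `y` by `x y`: `∫ φ(y⁻¹ x) dy = ∫ φ(y⁻¹) dy = 1`). For `x ∈ K`, `φ(y⁻¹ x) ≠ 0` implies `y ∈ x T⁻¹ ⊆ K'`, so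
`z(x) = 1`. Support in `K' T`. Smooth: parameter integral over the compact set `K'` of a smooth function (`contDiffOn_convolution_right_with_param`, or `ContDiff.parametric...`, or differentiation under the integral). `⟪gr z x, v⟫ = ∫_{K'} ⟪gr φ (y⁻¹ x), v⟫ dy` (derivative under the integral, `gr (φ(y⁻¹ ·)) x = gr φ (y⁻¹ x)`), so
`‖gr z x‖ ≤ ∫ ‖gr φ (y⁻¹ x)‖ dy = ∫ ‖gr φ (y⁻¹)‖ dy =: C₀ < ∞`, independent of `K`. -/
def CTF_stmt : Prop := ∀ (V : Type) [NormedAddCommGroup V] [InnerProductSpace ℝ V] [FiniteDimensional ℝ V] [MeasurableSpace V] [BorelSpace V] [Group V], IsLie V → ∃ C : ℝ, 0 < C ∧ ∀ K : Set V, IsCompact K → ∃ z : V → ℝ, Cut z ∧ (∀ x ∈ K, z x = 1) ∧ ∀ x, ‖gr z x‖ ≤ C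

/-- **SPL** (medium; from CUT, CTF, GRR, MES, PER). Splitting. Let `C₀` be the constant of CTF (WLOG replace `ε` by a smaller number). `K` compact with `vol (F \ K) < ε` (`vol F ≤ liminf vol (E k ∩ C) ≤ v < ∞` for all compact `C`, so `vol F < ∞`; inner regularity). `z` from CTF for `K`, `C' = tsupport z`. For large `k`: `vol ((E_k ∆ F) ∩ C') < ε` (this is `∫_{C'} |ind E_k - ind F|`). CUT for `A = E_k`: `t`, put
`S = {t < z}`, `K ⊆ S ⊆ C'`. `gr z = 0` on `K` (`z = 1` is its maximum), so `∫⁻_{E_k} ‖gr z‖ ≤ C₀ vol (E_k ∩ C' \ K) ≤ C₀ (vol (F ∩ C' \ K) + ε) ≤ 2 C₀ ε`. `vol (E_k ∩ S) ≥ vol (E_k ∩ K) ≥ vol (F ∩ K) - ε ≥ vol F - 2 ε`, `vol (E_k ∩ S) ≤ vol (E_k ∩ C') ≤ vol F + ε`. -/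
def SPL_stmt : Prop := ∀ (V : Type) [NormedAddCommGroup V] [InnerProductSpace ℝ V] [FiniteDimensional ℝ V] [MeasurableSpace V] [BorelSpace V] [Group V], IsLie V → ∃ C : ℝ, 0 < C ∧ ∀ (E : ℕ → Set V) (F : Set V) (v : ℝ), 0 < v → (∀ k, MeasurableSet (E k)) → (∀ k, vol V (E k) = ENNReal.ofReal v) →
  MeasurableSet F → L1 (fun k => ind (E k)) (ind F) → vol V F ≤ ENNReal.ofReal v ∧ ∀ ε : ℝ, 0 < ε → ∀ᶠ k in atTop, ∃ S : Set V,
    MeasurableSet S ∧ per (E k ∩ S) + per (E k \ S) ≤ per (E k) + ENNReal.ofReal (C * ε) ∧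
    vol V F ≤ vol V (E k ∩ S) + ENNReal.ofReal ε ∧ vol V (E k ∩ S) ≤ vol V F + ENNReal.ofReal ε

/-- **EXI** (medium; from CON, SSA, NVA, LCP, LSC, PER, SPL, VBL, MES). Existence. Minimising sequence: `vol E_k = v`, `per E_k ≤ Ip v + 1/(k+1)`. NVA (`M = Ip v + 1`): `x_k` with `vol (E_k ∩ bl x_k r) ≥ κ`; replace `E_k` by `x_k⁻¹ E_k` (PER, left invariance): `vol (E_k ∩ ball 1 r) ≥ κ`. LCP: subsequence with `ind E_k → ind F` in `L1`. `vol (F ∩ closedBall 1 r) ≥ κ`, so `v₁ = vol F > 0`; `v₁ ≤ v` by SPL. LSC: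
`per F ≤ liminf per E_k ≤ prof v`. If `v₁ = v` then `F` is a minimiser. If `v₁ < v`: for small `ε` and large `k` SPL gives `S` with `s = vol (E_k ∩ S)`, `|s - v₁| ≤ ε`, `0 < s < v`, and `Ip s + Ip (v - s) ≤ per (E_k ∩ S) + per (E_k \ S) ≤ Ip v + 1/(k+1) + C ε`; `Ip` is continuous on `(0, ∞)` (`ConcaveOn.continuousOn`), so `ε → 0`, `k → ∞` give
`Ip v₁ + Ip (v - v₁) ≤ Ip v`, against SSA. -/
def EXI_stmt : Prop := ∀ (V : Type) [NormedAddCommGroup V] [InnerProductSpace ℝ V] [FiniteDimensional ℝ V] [MeasurableSpace V] [BorelSpace V] [Group V], IsLie V → 1 ≤ finrank ℝ V → ∀ v : ℝ, 0 < v → ∃ E : Set V, MeasurableSet E ∧ vol V E = ENNReal.ofReal v ∧ per E = prof V v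

/-- **ITR** (medium). De Giorgi iteration. `θ₀ = min 1 (8^{-n} / (16 C C'))`, `ε = κ θ₀^n`, `r₁ = min r₀ (1 / (2 C L + 1))`. `θ_k = θ₀ 8^{-k}`, `ρ_k = r/2 + r/2^{k+1}` (`ρ_0 = r`). Claim `m(ρ_k) ≤ κ (θ_k r)^n`, by induction: apply the hypothesis to `ρ_{k+1} < ρ_k` and `σ = θ_k r ≤ r₀`: `s ≤ m(ρ_k) ≤ κ σ^n`, so
`s ≤ C θ_k r L s + 2 C C' θ_k r m(ρ_k) / (r / 2^{k+2})`; as `C θ_k r L ≤ 1/2`: `s ≤ 16 C C' θ_k 2^k m(ρ_k) ≤ 16 C C' θ₀ κ (θ_k r)^n ≤ 8^{-n} κ (θ_k r)^n = κ (θ_{k+1} r)^n` (`θ_k 2^k ≤ θ₀`), and `m(ρ_{k+1}) ≤ s`. Finally the hypothesis for `r/2 < ρ_k` gives `m(r/2) ≤ m(ρ_k) → 0` (`n ≥ 1`). -/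
def ITR_stmt : Prop := ∀ (n : ℕ) (κ C C' L r₀ : ℝ), 1 ≤ n → 0 < κ → 0 < C → 0 < C' → 0 ≤ L → 0 < r₀ → ∃ ε r₁ : ℝ, 0 < ε ∧ 0 < r₁ ∧ r₁ ≤ r₀ ∧
  ∀ (r : ℝ) (m : ℝ → ℝ), 0 < r → r ≤ r₁ → (∀ ρ, 0 ≤ m ρ) →
    (∀ ρ ρ' : ℝ, 0 < ρ → ρ < ρ' → ρ' ≤ r → ∃ s, m ρ ≤ s ∧ s ≤ m ρ' ∧ ∀ σ, 0 < σ → σ ≤ r₀ → s ≤ κ * σ ^ n →
      s ≤ C * σ * (L * s + 2 * C' * m ρ' / (ρ' - ρ))) →
    m r ≤ ε * r ^ n → m (r / 2) = 0

/-- **CTB** (medium; from FRA, GRR). Cut-off functions for the sets `bl x ρ`. By left translation (GRR, last claim; `z(x⁻¹ ·)`) let `x = 1`. `z(y) = η((ρ'² - ‖y - 1‖²) / (ρ'² - ρ²))`, `η = Real.smoothTransition`: 1 for `‖y - 1‖ ≤ ρ`, 0 for `‖y - 1‖ ≥ ρ'`. `‖Dz(y)‖ ≤ sup |η'| 2 ‖y - 1‖ / (ρ'² - ρ²) ≤ 2 sup |η'| / (ρ' - ρ)` (for `‖y - 1‖ ≤ ρ'`), `sup |η'| < ∞` (continuous,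
zero outside `[0, 1]`), and `‖gr z y‖ ≤ ‖Dz(y)‖ ‖fr y‖`, `‖fr y‖` bounded for `‖y - 1‖ ≤ 1 = r₀`. -/
def CTB_stmt : Prop := ∀ (V : Type) [NormedAddCommGroup V] [InnerProductSpace ℝ V] [FiniteDimensional ℝ V] [MeasurableSpace V] [BorelSpace V] [Group V], IsLie V → ∃ C r₀ : ℝ, 0 < C ∧ 0 < r₀ ∧ ∀ (x : V) (ρ ρ' : ℝ), 0 < ρ → ρ < ρ' → ρ' ≤ r₀ →
  ∃ z : V → ℝ, Cut z ∧ (∀ y ∈ bl x ρ, z y = 1) ∧ (∀ y, y ∉ bl x ρ' → z y = 0) ∧ ∀ y, ‖gr z y‖ ≤ C / (ρ' - ρ)

/-- **BLC** (short to medium; from CUT, CTB, VBL). CUT with `z` from CTB, `S = {t < z}`, `bl x ρ ⊆ S ⊆ bl x ρ'`, `∫⁻_A ‖gr z‖ ≤ (C / (ρ' - ρ)) vol (A ∩ bl x ρ')` (`gr z = 0` outside `bl x ρ'`: there `z = 0` is the minimum of `z`). -/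
def BLC_stmt : Prop := ∀ (V : Type) [NormedAddCommGroup V] [InnerProductSpace ℝ V] [FiniteDimensional ℝ V] [MeasurableSpace V] [BorelSpace V] [Group V], IsLie V → ∃ C r₀ : ℝ, 0 < C ∧ 0 < r₀ ∧ ∀ (A : Set V) (x : V) (ρ ρ' : ℝ), MeasurableSet A → 0 < ρ → ρ < ρ' → ρ' ≤ r₀ →
  ∃ S : Set V, MeasurableSet S ∧ bl x ρ ⊆ S ∧ S ⊆ bl x ρ' ∧
    per (A ∩ S) + per (A \ S) ≤ per A + ENNReal.ofReal (2 * C / (ρ' - ρ)) * vol V (A ∩ bl x ρ')

/-- **CLE** (medium; from CON, ISO, BLC, ITR, VBL, PER). Clean-up lemma, inside. ITR with the constants of ISO (`κ, C`), BLC (`C'`), `L = 2 Ip v / v`, `r₀` the minimum of the radii; `r₁` is made smaller so that `ε r₁^n ≤ v / 2`. Let `m(ρ) = (vol (E ∩ bl x ρ)).toReal` for `ρ > 0` (and 0 otherwise), assume `m(r) ≤ ε r^n`, so `m(ρ') ≤ v/2` for `ρ' ≤ r`. Hypothesis of ITR: BLC for `A = E` gives `S`; `s = vol (E ∩ S)`,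
`m(ρ) ≤ s ≤ m(ρ')`. `vol (E \ S) = v - s ≥ v/2`, `per (E \ S) ≥ Ip (v - s) ≥ Ip v - L s` (concavity: the slope of `Ip` over `[v - s, v]` is at most that over `[v/2, v]`, which is at most `2 Ip v / v`). `per E = Ip v < ∞`, so `per (E ∩ S) ≤ L s + 2 C' m(ρ') / (ρ' - ρ)`, and ISO for `E ∩ S`. -/
def CLE_stmt : Prop := ∀ (V : Type) [NormedAddCommGroup V] [InnerProductSpace ℝ V] [FiniteDimensional ℝ V] [MeasurableSpace V] [BorelSpace V] [Group V], IsLie V → 1 ≤ finrank ℝ V → ∀ (E : Set V) (v : ℝ), 0 < v → MeasurableSet E → vol V E = ENNReal.ofReal v → per E = prof V v →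
  ∃ ε r₁ : ℝ, 0 < ε ∧ 0 < r₁ ∧ ∀ (x : V) (r : ℝ), 0 < r → r ≤ r₁ →
    vol V (E ∩ bl x r) ≤ ENNReal.ofReal (ε * r ^ finrank ℝ V) → vol V (E ∩ bl x (r / 2)) = 0

/-- **CLC** (medium; from CON, ISO, BLC, ITR, VBL, PER). Clean-up lemma, outside. As CLE with `m(ρ) = (vol (bl x ρ \ E)).toReal` and `A = Eᶜ` in BLC: `S`, `s = vol (S \ E)`, `m(ρ) ≤ s ≤ m(ρ')`; `per (Eᶜ \ S) = per ((E ∪ S)ᶜ) = per (E ∪ S) ≥ prof (v + s) ≥ prof v = per E = per Eᶜ` (PER; `Ip` is monotone; for `s = 0` trivial), so `per (S \ E) ≤ 2 C' m(ρ') / (ρ' - ρ)`. ISO for `S \ E`; `L = 0`. -/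
def CLC_stmt : Prop := ∀ (V : Type) [NormedAddCommGroup V] [InnerProductSpace ℝ V] [FiniteDimensional ℝ V] [MeasurableSpace V] [BorelSpace V] [Group V], IsLie V → 1 ≤ finrank ℝ V → ∀ (E : Set V) (v : ℝ), 0 < v → MeasurableSet E → vol V E = ENNReal.ofReal v → per E = prof V v →
  ∃ ε r₁ : ℝ, 0 < ε ∧ 0 < r₁ ∧ ∀ (x : V) (r : ℝ), 0 < r → r ≤ r₁ →
    vol V (bl x r \ E) ≤ ENNReal.ofReal (ε * r ^ finrank ℝ V) → vol V (bl x (r / 2) \ E) = 0

/-- **SUP** (medium; from CON, CLE, CLC, AVE, PER, VBL, MES). Minimisers are regions. `S = {x : vol (E ∩ U) > 0 for all U ∈ 𝓝 x}` (closed), `S'` the same for `Eᶜ`, `O = V \ S'` (open). The `bl x r`, `r > 0`, are a basis of neighbourhoods of `x`. `vol (E \ S) = 0 = vol (Eᶜ \ S')` (`measure_null_of_locally_null`). CLE, CLC: for `x ∈ S` and `r ≤ r₁`: `vol (E ∩ bl x r) > ε r^n`; for `x ∈ S'`: `vol (bl x r \ E) > ε r^n`.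
`vol (S ∩ S') = 0`: by AVE for `E`: `ε r^n vol (E ∩ S ∩ S') ≤ ∫_E vol (bl x r \ E) ≤ C r κ₂ r^n per E` for all small `r`, so `vol (E ∩ S ∩ S') = 0`; AVE for `Eᶜ` gives `vol (Eᶜ ∩ S ∩ S') = 0` (`per Eᶜ = per E < ∞`). `S` is compact: `K` compact with `vol (E \ K) < ε r₁^n`; for `x ∈ S` the set `bl x r₁` meets `K`, so `x ∈ K (closedBall 1 r₁)⁻¹`, compact. `O ⊆ S`
(`x ∈ O` has a neighbourhood in which `Eᶜ` is null). `S \ O = S ∩ S'` is null; `S = E` a.e. (`S \ E ⊆ (S ∩ S') ∪ (Eᶜ \ S')`). `closure O = S`: for `x ∈ S`, `U` open, `vol (E ∩ U) > 0` and `vol (E \ O) = vol (E ∩ S') ≤ vol (E \ S) + vol (S ∩ S') = 0`, so `U` meets `O`. -/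
def SUP_stmt : Prop := ∀ (V : Type) [NormedAddCommGroup V] [InnerProductSpace ℝ V] [FiniteDimensional ℝ V] [MeasurableSpace V] [BorelSpace V] [Group V], IsLie V → 1 ≤ finrank ℝ V → ∀ (E : Set V) (v : ℝ), 0 < v → MeasurableSet E → vol V E = ENNReal.ofReal v → per E = prof V v →
  ∃ S O : Set V, IsCompact S ∧ IsOpen O ∧ O ⊆ S ∧ closure O = S ∧ vol V (S \ O) = 0 ∧ S =ᵐ[vol V] E

/-! ### Block E. Strict concavity -/

/-- **THK** (medium; from MES). Thickening. `B_k` = closed ball of radius `1/(k+1)` about `1` (compact). `{x | ∃ g ∈ B_k, g⁻¹ x ∈ S} = B_k S` is compact and decreases to `S` (`S` is closed), so its volume (finite) tends to `vol S < b` (`tendsto_measure_iInter_atTop`). `{x | ∀ g ∈ B_k, g⁻¹ x ∈ O}` increases to `O` (`O` open), so its volume tends to `vol O = vol S > a`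
(`tendsto_measure_iUnion_atTop`; this set is the complement of `B_k Oᶜ`, which is closed, so it is open), and it is contained in `{x | ∀ g ∈ B_k, g⁻¹ x ∈ S}`. -/
def THK_stmt : Prop := ∀ (V : Type) [NormedAddCommGroup V] [InnerProductSpace ℝ V] [FiniteDimensional ℝ V] [MeasurableSpace V] [BorelSpace V] [Group V], IsLie V → ∀ (S O : Set V) (a b : ℝ≥0∞), IsCompact S → IsOpen O → O ⊆ S → vol V (S \ O) = 0 → a < vol V S → vol V S < b →
  ∃ B ∈ 𝓝 (1 : V), vol V {x | ∃ g ∈ B, g⁻¹ * x ∈ S} < b ∧ a < vol V {x | ∀ g ∈ B, g⁻¹ * x ∈ S}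

/-- **CGR** (medium; from FRA, MES, GRR). Differentiate `cv m h x = ∫ m(g) h(g⁻¹ x) dg` under the integral (`m` has compact support; `(g, x) ↦ h(g⁻¹ x)` is smooth): `D(cv m h)(x) = ∫ m(g) D(h ∘ L_{g⁻¹})(x) dg`, and `gr (h ∘ L_{g⁻¹}) x = gr h (g⁻¹ x)` (GRR); `toDual.symm` and composition with `fr x` commute with the integral. -/
def CGR_stmt : Prop := ∀ (V : Type) [NormedAddCommGroup V] [InnerProductSpace ℝ V] [FiniteDimensional ℝ V] [MeasurableSpace V] [BorelSpace V] [Group V], IsLie V → ∀ m h : V → ℝ, Mol m → ContDiff ℝ ∞ h → HasCompactSupport h →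
  ∀ x, gr (cv m h) x = ∫ g, m g • gr h (g⁻¹ * x) ∂(vol V)

/-- **CHN** (medium to long; from CON, EXI, SUP, THK, CSM, CTV, CVI, MOL, TVS, COA, CGR, PER, MES, GRR). The chain. Let `v = (a + b) / 2`, `S, O` from EXI and SUP: `vol S = v`, `per S = Ip v = c + L v`. THK (`a < v < b`): `B`; `B'` a neighbourhood of `1` with `B' B' ⊆ B`; `m, m₂` from MOL for `B'`, `0 < m 1`. `h = cv m₂ (ind S)`, `u = cv m h` (both smooth and `IsU`; compact support: `h(x) ≠ 0` implies `x ∈ B' S` with the closed support of `m₂`, compact). For `t ∈ (0, 1)`: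
`{x | ∀ g ∈ B, g⁻¹ x ∈ S} ⊆ {t < u} ⊆ {x | ∃ g ∈ B, g⁻¹ x ∈ S}` (if `g⁻¹ x ∈ S` for all `g ∈ B` then `u(x) = 1`; if `u(x) > 0` then `g₂⁻¹ g₁⁻¹ x ∈ S` for some `g₁, g₂ ∈ B'`), so `y(t) = vol {t < u} ∈ (a, b)` and `per {t < u} ≥ Ip (y(t)) = c + L y(t)`. `∫_0^1 y(t) dt = ∫ u = ∫ ind S = v` (`lintegral_eq_lintegral_meas_lt`, CVI twice). COA, TVS, CTV:
`c + L v = ∫_0^1 (c + L y(t)) dt ≤ ∫_0^1 per {t < u} dt ≤ ∫⁻ ‖gr u‖`, and `‖gr u x‖ = ‖∫ m(g) gr h (g⁻¹ x)‖ ≤ ∫ m(g) ‖gr h (g⁻¹ x)‖` (CGR), `∫⁻_x ∫ m(g) ‖gr h (g⁻¹ x)‖ = ∫⁻ ‖gr h‖ = tv h ≤ tv (ind S) = per S = c + L v < ∞`. So `∫ m(g) ‖gr h (g⁻¹ x)‖ dg - ‖∫ m(g) gr h (g⁻¹ x) dg‖` is a continuous nonnegative function of `x` with integral 0, so it is 0. `h ≠ 0` since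
`∫ h = v > 0`. -/
def CHN_stmt : Prop := ∀ (V : Type) [NormedAddCommGroup V] [InnerProductSpace ℝ V] [FiniteDimensional ℝ V] [MeasurableSpace V] [BorelSpace V] [Group V], IsLie V → 1 ≤ finrank ℝ V → ∀ a b c L : ℝ, 0 < a → a < b → (∀ v ∈ Icc a b, Ip V v = c + L * v) →
  ∃ h m : V → ℝ, ContDiff ℝ ∞ h ∧ HasCompactSupport h ∧ (∃ x, h x ≠ 0) ∧ Mol m ∧ 0 < m 1 ∧
    ∀ x, ‖∫ g, m g • gr h (g⁻¹ * x) ∂(vol V)‖ = ∫ g, m g * ‖gr h (g⁻¹ * x)‖ ∂(vol V)

/-- **TRI** (short to medium; from MES). Equality in the triangle inequality. Fix `x`, `w = ∫ m(g) F(g⁻¹ x) dg`. If `w ≠ 0` let `ν = w / ‖w‖`: `∫ m(g) (‖F(g⁻¹ x)‖ - ⟪F(g⁻¹ x), ν⟫) dg = ‖w‖ - ⟪w, ν⟫ = 0`, the integrand is continuous and `≥ 0`, so 0 everywhere: if `m g ≠ 0` then `⟪F, ν⟫ = ‖F‖`, `‖ν‖ = 1`, so `F = ‖F‖ • ν` (`inner_eq_norm_mul_iff` or `‖F - ‖F‖ ν‖² = 0`). If `w = 0` then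
`∫ m ‖F(g⁻¹ x)‖ = 0`, so `F(g⁻¹ x) = 0` whenever `m g ≠ 0`; `ν = 0`. (`vol V` is positive on open sets.) -/
def TRI_stmt : Prop := ∀ (V : Type) [NormedAddCommGroup V] [InnerProductSpace ℝ V] [FiniteDimensional ℝ V] [MeasurableSpace V] [BorelSpace V] [Group V], IsLie V → ∀ (F : V → V) (m : V → ℝ), Continuous F → Mol m →
  (∀ x, ‖∫ g, m g • F (g⁻¹ * x) ∂(vol V)‖ = ∫ g, m g * ‖F (g⁻¹ * x)‖ ∂(vol V)) →
  ∀ x, ∃ ν : V, ∀ g, m g ≠ 0 → F (g⁻¹ * x) = ‖F (g⁻¹ * x)‖ • ν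

/-- **CLO** (medium; from FRA, GRR). The closed form. Let `gr h x₀ ≠ 0`, `ν = gr h x₀ / ‖gr h x₀‖`, `β x = fderiv h x` if `gr h x = ‖gr h x‖ • ν` and `β x = 0` otherwise. Let `p ∈ V`, `ν_p` as in the hypothesis, `N_p = {g p : g ∈ W}`, a neighbourhood of `p`. If `ν_p = ν` then `β = fderiv h` on `N_p`. If `ν_p ≠ ν` then `β = 0` on `N_p`: for `y ∈ N_p`, either `gr h y ≠ 0` and
`gr h y = ‖gr h y‖ • ν_p ≠ ‖gr h y‖ • ν`, or `gr h y = 0` and then `fderiv h y = 0` (GRR). So near every point `β` is equal to `fderiv h` or to 0: it is `C¹` and `fderiv β` is symmetric (second derivatives of a smooth function, `ContDiffAt.isSymmSndFDerivAt` or `second_derivative_symmetric`). Support in that of `h`. If `gr h x = ‖gr h x‖ • ν` then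
`β x (fr x ν) = ⟪gr h x, ν⟫ = ‖gr h x‖ ‖ν‖² = ‖gr h x‖ ≥ 0` (`inner_gr`), positive at `x₀`. -/
def CLO_stmt : Prop := ∀ (V : Type) [NormedAddCommGroup V] [InnerProductSpace ℝ V] [FiniteDimensional ℝ V] [MeasurableSpace V] [BorelSpace V] [Group V], IsLie V → ∀ h : V → ℝ, ContDiff ℝ ∞ h → HasCompactSupport h → (∃ x, gr h x ≠ 0) →
  (∃ W ∈ 𝓝 (1 : V), ∀ p, ∃ ν : V, ∀ g ∈ W, gr h (g * p) = ‖gr h (g * p)‖ • ν) →
  ∃ (β : V → V →L[ℝ] ℝ) (ν x₀ : V), ContDiff ℝ 1 β ∧ HasCompactSupport β ∧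
    (∀ x u w, fderiv ℝ β x u w = fderiv ℝ β x w u) ∧ (∀ x, 0 ≤ β x (fr x ν)) ∧ 0 < β x₀ (fr x₀ ν)

/-- **POI** (short to medium). Poincaré lemma with compact support. `Convex.exists_forall_hasFDerivAt_of_fderiv_symmetric` on `univ` (Mathlib `CurveIntegral/Poincare.lean`): `f` with derivative `β`. Let `β = 0` outside the closed ball of radius `R` about 0. The complement of this ball is open and connected (dimension `≥ 2`: it is the image of `(R, ∞) × sphere`, `isPreconnected_sphere`), so `f` is constant `= c` there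
(`IsOpen.exists_is_const_of_fderiv_eq_zero`). `Ψ = f - c`. -/
def POI_stmt : Prop := ∀ (V : Type) [NormedAddCommGroup V] [NormedSpace ℝ V] [FiniteDimensional ℝ V], 2 ≤ finrank ℝ V →
  ∀ β : V → V →L[ℝ] ℝ, ContDiff ℝ 1 β → HasCompactSupport β → (∀ x u w, fderiv ℝ β x u w = fderiv ℝ β x w u) →
  ∃ Ψ : V → ℝ, ContDiff ℝ 1 Ψ ∧ HasCompactSupport Ψ ∧ ∀ x, fderiv ℝ Ψ x = β x

/-- **RHA** (medium; from FRA, MES). Right Haar measure `μ' = (vol V).inv` (right-invariant, finite on compact sets, positive on open sets). `c(s) = 1 + s ν`. `∫ (Ψ(x c(s)) - Ψ(x)) / s dμ'(x) = 0` for `0 < s ≤ 1`; as `s → 0` the integrand tends to `DΨ(x)(fr x ν)` (derivative of `s ↦ Ψ(x c(s))` at 0), uniformly bounded with support in a fixed compact set (mean value inequality on the compact set). So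
`∫ DΨ(x)(fr x ν) dμ' = 0`, the integrand is continuous and `≥ 0`, so it is 0. -/
def RHA_stmt : Prop := ∀ (V : Type) [NormedAddCommGroup V] [InnerProductSpace ℝ V] [FiniteDimensional ℝ V] [MeasurableSpace V] [BorelSpace V] [Group V], IsLie V → ∀ (Ψ : V → ℝ) (ν : V), ContDiff ℝ 1 Ψ → HasCompactSupport Ψ → (∀ x, 0 ≤ fderiv ℝ Ψ x (fr x ν)) →
  ∀ x, fderiv ℝ Ψ x (fr x ν) = 0

/-- **AFF** (short to medium). A concave function which is not strictly concave is affine on an interval. There are `x < y` in `(0, ∞)` and `p ∈ (0, 1)` with `f (p x + (1-p) y) = p f x + (1-p) f y` (equality, by concavity). Then `f` is equal to its chord on `[x, y]`: `≥` by concavity; if `f w > ` chord at some `w ∈ (x, y)`, say `w` between `x` and `z = p x + (1-p) y`, then `z` is between `w` and `y`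
and concavity gives `f z > ` chord at `z`. -/
def AFF_stmt : Prop := ∀ f : ℝ → ℝ, ConcaveOn ℝ (Ioi 0) f → ¬ StrictConcaveOn ℝ (Ioi 0) f →
  ∃ a b c L : ℝ, 0 < a ∧ a < b ∧ ∀ v ∈ Icc a b, f v = c + L * v

/-- **STR** (short to medium; from CON, CHN, TRI, CLO, POI, RHA, AFF, GRR). Otherwise AFF and CHN give `h, m`. `gr h ≠ 0` somewhere: otherwise `fderiv h = 0` (GRR), `h` is constant, with compact support in the noncompact space `V`, so 0. TRI for `F = gr h`: for all `x` there is `ν` with `F(g⁻¹ x) = ‖F(g⁻¹ x)‖ • ν` whenever `m g ≠ 0`. `W = {g | m g⁻¹ ≠ 0}` is a neighbourhood of `1`. CLO: `β, ν, x₀`. POI: `Ψ`. RHA: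
`β x₀ (fr x₀ ν) = 0`, a contradiction. -/
def STR_stmt : Prop := ∀ (V : Type) [NormedAddCommGroup V] [InnerProductSpace ℝ V] [FiniteDimensional ℝ V] [MeasurableSpace V] [BorelSpace V] [Group V], IsLie V → 2 ≤ finrank ℝ V → StrictConcaveOn ℝ (Ioi 0) (Ip V)

/-! ### Block F. The theorem -/

/-- **DFF** (medium). Real analysis. The right derivative of the concave function `f` is antitone on `(0, ∞)`, so it has at most countably many discontinuities (`AntitoneOn`/`MonotoneOn.countable_not_continuousAt`-like lemma); where it is continuous, left and right derivatives agree and `f` is differentiable (Mathlib `Analysis/Convex/Deriv.lean`). For `v < w` outside `N`: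
`deriv f v > (f w - f v)/(w - v) > deriv f w` by strict concavity. -/
def DFF_stmt : Prop := ∀ f : ℝ → ℝ, StrictConcaveOn ℝ (Ioi 0) f →
  ∃ N : Set ℝ, N.Countable ∧ (∀ v, 0 < v → v ∉ N → DifferentiableAt ℝ f v) ∧ StrictAntiOn (deriv f) (Ioi 0 \ N)

/-- **REG** (short to medium; from CON, EXI, SUP, PER, MES). `prof ≤ iso` since regions are measurable. EXI and SUP: `S` compact, `O` open, `closure O = S`, `vol (S \ O) = 0`, `S = E` a.e.: `O ⊆ interior S`, so `closure (interior S) = S`, `IsRegion S`, `frontier S ⊆ S \ O` is null, `vol S = v`, `per S = per E = prof v` (PER). So `iso v = prof v` and `IsSol S`. A region `E` of volume `v` is a solution iff `per E = prof v`. -/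
def REG_stmt : Prop := ∀ (V : Type) [NormedAddCommGroup V] [InnerProductSpace ℝ V] [FiniteDimensional ℝ V] [MeasurableSpace V] [BorelSpace V] [Group V], IsLie V → 1 ≤ finrank ℝ V → ∀ v : ℝ, 0 < v → iso V v = prof V v ∧
  (∃ E : Set V, IsSol E ∧ vol V E = ENNReal.ofReal v ∧ vol V (frontier E) = 0) ∧
  ∀ E : Set V, IsRegion E → vol V E = ENNReal.ofReal v → (IsSol E ↔ per E = prof V v)

/-- **MCV** (short to medium; from CON). First variation. `(vol (A t)).toReal` and `(per (A t)).toReal` are near `v > 0` and `Ip v > 0` (`Ip v > 0`: SSA-like; if `Ip v = 0` use only that `per (A t)` is finite for small `t` by hypothesis) for small `t`, so `vol (A t)` is finite and positive, `per (A t) ≥ prof (vol (A t))`, i.e. `per (A t) - Ip (vol (A t)) ≥ 0` (real numbers), with equality at `t = 0`. The derivative at 0 of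
`(per (A t)).toReal - Ip ((vol (A t)).toReal)` is `p - Ip'(v) w`; it is 0 at a local minimum (`IsLocalMin.hasDerivAt_eq_zero`). -/
def MCV_stmt : Prop := ∀ (V : Type) [NormedAddCommGroup V] [InnerProductSpace ℝ V] [FiniteDimensional ℝ V] [MeasurableSpace V] [BorelSpace V] [Group V], IsLie V → 1 ≤ finrank ℝ V → ∀ (v p w : ℝ) (A : ℝ → Set V), 0 < v → DifferentiableAt ℝ (Ip V) v → (∀ t, MeasurableSet (A t)) →
  vol V (A 0) = ENNReal.ofReal v → per (A 0) = prof V v → (∀ᶠ t in 𝓝 0, per (A t) ≠ ⊤) →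
  HasDerivAt (fun t => (vol V (A t)).toReal) w 0 → HasDerivAt (fun t => (per (A t)).toReal) p 0 → p = deriv (Ip V) v * w

/-- **FNL** (short to medium; from CON, STR, SSA, REG, MCV, DFF, PER). Final statement. (1) REG, `prof V v < ⊤`. (2) `(iso V v).toReal = Ip V v` for `v > 0` (REG), STR; strictly monotone: a monotone strictly concave function. (3) Solutions are indecomposable: `E = A ∪ B` disjoint with volumes `x, y > 0`, `x + y = v`: `per A + per B ≥ prof x + prof y > prof v = per E` by SSA (if `per A` or `per B` is `⊤` trivial). (4) `per (E ∪ A) ≥ prof (v + vol A) > prof v = per E` by (2). (5) DFF for `Ip V`, `H = deriv (Ip V)`, MCV. -/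
def FNL_stmt : Prop := ∀ (V : Type) [NormedAddCommGroup V] [InnerProductSpace ℝ V] [FiniteDimensional ℝ V] [MeasurableSpace V] [BorelSpace V] [Group V], IsLie V → 2 ≤ finrank ℝ V →
  (∀ v : ℝ, 0 < v → iso V v < ⊤ ∧ (∃ E : Set V, IsSol E ∧ vol V E = ENNReal.ofReal v ∧ vol V (frontier E) = 0) ∧
    ∀ E : Set V, MeasurableSet E → vol V E = ENNReal.ofReal v → iso V v ≤ per E) ∧
  StrictConcaveOn ℝ (Ioi 0) (fun v => (iso V v).toReal) ∧ StrictMonoOn (fun v => (iso V v).toReal) (Ioi 0) ∧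
  (∀ E A B : Set V, IsSol E → MeasurableSet A → MeasurableSet B → Disjoint A B → A ∪ B = E → 0 < vol V A → 0 < vol V B →
    per E < per A + per B) ∧
  (∀ E A : Set V, IsSol E → 0 < vol V E → MeasurableSet A → Disjoint A E → 0 < vol V A → vol V A < ⊤ → per E < per (E ∪ A)) ∧
  ∃ (N : Set ℝ) (H : ℝ → ℝ), N.Countable ∧ StrictAntiOn H (Ioi 0 \ N) ∧
    ∀ v : ℝ, 0 < v → v ∉ N → ∀ E : Set V, IsSol E → vol V E = ENNReal.ofReal v →
      ∀ (A : ℝ → Set V) (p w : ℝ), A 0 = E → (∀ t, MeasurableSet (A t)) → (∀ᶠ t in 𝓝 0, per (A t) ≠ ⊤) →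
        HasDerivAt (fun t => (vol V (A t)).toReal) w 0 → HasDerivAt (fun t => (per (A t)).toReal) p 0 → p = H v * w

end Pool.Agent.MLG
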